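import Pool.Agent.Q55.Oc.Step
import Pool.Agent.H914R2.PProd

/-!
# The conjecture A in one codimension
-/

open CategoryTheory AlgebraicGeometry Finset

set_option linter.unusedSectionVars false

universe u v

namespace Pool.Agent.Q55.Oc

open Pool.Agent.H914 Pool.Agent.H914.VarClass Pool.Agent.H914.VarClass.Obj
  Pool.Agent.H914.WeilCohomology Pool.Agent.H447 Pool.Agent.W550.B Pool.Agent.Q55.Od
  Pool.Agent.W537 Pool.Agent.H281R3.HT

variable {k : Type u} [Field k] {𝒱 : VarClass k} {ops : CycleOps 𝒱}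
  {W : WeilCohomology.{u, v} ops} {X : 𝒱.Obj} {C : ℕ → 𝒱.Obj} {D : X.Cycles}
  {E : ∀ i, (C i).Cycles}

theorem law_down (hD : X.IsCyc 1 D) (hC : ∀ i, IsCurveWith (C i) (E i)) : ∀ N p,
    2 * p < X.dim + N → ProductAIn W X D C E N p → WindowA W X D N p
  | 0, p, hp, h => by
    intro q hq h1 h2
    obtain rfl : q = p := by omega
    exact h
  | N + 1, p, hp, h => by
    have hdim := dim_timesCurves (X := X) hC N
    have hcyc := timesDiv_cyc (ops := ops) hD hC N
    have IH := law_down hD hC N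
    have h0 := down_same (hC N) hcyc (p := p) (by omega) h
    have hprev : 1 ≤ p → LefschetzAIn W (timesCurves X C N) (timesDiv ops D E N) (p - 1) := by
      intro h1
      refine down_pred (hC N) hcyc (p := p - 1) (by omega) ?_
      rwa [show p - 1 + 1 = p by omega]
    intro q hq h1 h2
    by_cases h3 : 2 * p < X.dim + N ∧ p ≤ q + N
    · exact IH p h3.1 h0 q hq h1 h3.2
    · exact IH (p - 1) (by omega) (hprev (by omega)) q hq (by omega) (by omega)

theorem law_up (hD : X.IsCyc 1 D) (hC : ∀ i, IsCurveWith (C i) (E i)) : ∀ N p,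
    NoGenus W C N → 2 * p < X.dim + N → WindowA W X D N p → ProductAIn W X D C E N p
  | 0, p, _, hp, h => h p hp le_rfl le_rfl
  | N + 1, p, hb, hp, h => by
    have hdim := dim_timesCurves (X := X) hC N
    have hcyc := timesDiv_cyc (ops := ops) hD hC N
    have IH := law_up hD hC N
    have hb' : NoGenus W C N := fun i hi => hb i (by omega)
    refine up (hC N) (hb N (by omega)) hcyc (by omega) ?_ ?_
    · by_cases h3 : 2 * p < X.dim + N
      · exact IH p hb' h3 fun q hq h1 h2 => h q hq h1 (by omega)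
      · exact ain_mid (by omega)
    · rintro q rfl
      exact IH q hb' (by omega) fun q' hq h1 h2 => h q' hq (by omega) (by omega)

/-- The conjecture A for `X` is its window. -/
lemma lefschetzA_iff_window {N p : ℕ} (h1 : p ≤ N) (h2 : X.dim ≤ 2 * p + 2) :
    LefschetzA W X D ↔ WindowA W X D N p := by
  constructor
  · exact fun h q hq _ _ => h q (by omega)
  · intro h j hj
    rcases hj.lt_or_eq with h3 | h3
    · exact h j h3 (by omega) (by omega)
    · exact ain_mid h3.symm

/-- Statement (a) in the degree `2 p` implies the conjecture A in codimension `p`. -/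
lemma ain_of_statementA {p : ℕ} (hp : 2 * p ≤ X.dim) (h : StatementA W X D (2 * p)) :
    LefschetzAIn W X D p := by
  obtain ⟨z, hz, h1⟩ := h
  rw [ain_iff]
  rintro _ ⟨c, hc, rfl⟩
  refine ⟨cycOp W X z (W.cl X c), ?_, ?_⟩
  · refine ⟨ops.push (snd X X) (ops.mul z (ops.pull (fst X X) c)),
      ops.push_mem _ (p := 2 * p + (X.dim - p)) (ops.mul_mem hz (ops.pull_mem _ hc))
        (by simp only [dim_prod]; omega), ?_⟩
    rw [W.cl_push, W.cl_mul, W.cl_pull]
    rfl
  · rw [LinearMap.pow_mulLeft]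
    exact h1.2 _ (by
      have := W.cl_mem hc
      rwa [show 2 * (X.dim - p) = 2 * X.dim - 2 * p by omega] at this)

/-! ## Products -/

/-- The lowering operator; it is algebraic if the conjecture B holds. -/
lemma exists_f (hD : X.IsCyc 1 D) (hHL : HardLefschetz W X D) :
    ∃ f, Sl2 (wt (W.isInternal X) X.dim) (LL D W) f ∧
      (LefschetzB W X D → ROp W X (-1) f) := by
  have hLR := rop_mulLeft (W := W) hD
  have hLh : IsHom (W.gr X) 2 (LinearMap.mulLeft W.K (W.cl X D)) := by
    simpa using rop_opAlg.hom hLR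
  obtain ⟨f, t, hf, hfv⟩ := exists_sl2 (W.isInternal X) hLh W_hbd hHL
  refine ⟨f, t, fun hB => ?_⟩
  obtain ⟨Φ, hΦ, hLam⟩ := lefschetzB_iff_rop.1 hB
  exact lower_of_lam rop_opAlg (W.isInternal X) W_hbd hLR hHL hΦ hLam hfv

/-- Hard Lefschetz from a triple. -/
lemma hardLefschetz_of_sl2 (hD : X.IsCyc 1 D) {f : Module.End W.K (W.H X)}
    (t : Sl2 (wt (W.isInternal X) X.dim) (LL D W) f) : HardLefschetz W X D := by
  have hinj : ∀ i ≤ X.dim, ∀ a ∈ W.gr X i,
      (LinearMap.mulLeft W.K (W.cl X D) ^ (X.dim - i)) a = 0 → a = 0 := by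
    intro i hi a ha h0
    by_contra ha0
    refine Sl2.e_pow_inj t (x := a) (M := X.dim - i) ?_ ha0 le_rfl h0
    rw [Pool.Agent.W552.Fr.wt_gr ha]
    congr 1
    rw [Nat.cast_sub hi]
    ring
  intro i hi
  refine ⟨hinj i hi, fun b hb => ?_⟩
  have hmem : ∀ v ∈ W.gr X i, ((LinearMap.mulLeft W.K (W.cl X D)) ^ (X.dim - i)) v ∈
      W.gr X (2 * X.dim - i) := by
    intro v hv
    have := pow_L_mem (LL_isHom hD W) hv (X.dim - i)
    rwa [show i + 2 * (X.dim - i) = 2 * X.dim - i by omega] at this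
  set φ : W.gr X i →ₗ[W.K] W.gr X (2 * X.dim - i) :=
    (LinearMap.mulLeft W.K (W.cl X D) ^ (X.dim - i)).restrict hmem with hφ
  have hinj' : Function.Injective φ := by
    rw [← LinearMap.ker_eq_bot, LinearMap.ker_eq_bot']
    rintro ⟨a, ha⟩ h0
    exact Subtype.ext (hinj i hi a ha (congrArg Subtype.val h0))
  have hdim : Module.finrank W.K (W.gr X i) = Module.finrank W.K (W.gr X (2 * X.dim - i)) :=
    le_antisymm (betti_le W (by omega)) (betti_le W (by omega))
  obtain ⟨a, ha⟩ := (LinearMap.injective_iff_surjective_of_finrank_eq_finrank hdim).1 hinj' ⟨b, hb⟩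
  exact ⟨a, a.2, congrArg Subtype.val ha⟩

section Two

variable {Y : 𝒱.Obj} {G : Y.Cycles}

lemma exists_f_prod (hX : IsLefschetzDivisor W X D) (hY : IsLefschetzDivisor W Y G) :
    ∃ f, Sl2 (wt (W.isInternal (X.prod Y)) (X.prod Y).dim) (LL (pd ops D G) W) f ∧
      (LefschetzB W X D → LefschetzB W Y G → ROp W (X.prod Y) (-1) f) := by
  obtain ⟨f, t, hf⟩ := exists_f hX.1 hX.2
  obtain ⟨g, t', hg⟩ := exists_f hY.1 hY.2
  refine ⟨extSum W f g, ?_, fun h h' => ?_⟩
  · have h1 := sl2_prod (Y := X) (Z := Y) t t'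
    rwa [← wt_prod, ← mulLeft_prod hY.1] at h1
  · obtain ⟨F, hF, hFW⟩ := hf h
    obtain ⟨G', hG, hGW⟩ := hg h'
    refine ⟨fun W => extOp W (F W) 1 + extOp W 1 (G' W), ?_, ?_⟩
    · exact ((realized_ext hF (Realized.one (ops := ops) (X := Y))).cast (by ring)).add
        ((realized_ext (Realized.one (ops := ops) (X := X)) hG).cast (by ring))
    · rw [← hFW, ← hGW]
      rfl

/-- The sum of divisors with hard Lefschetz has hard Lefschetz. -/
theorem isLefschetzDivisor_prod (hX : IsLefschetzDivisor W X D) (hY : IsLefschetzDivisor W Y G) :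
    IsLefschetzDivisor W (X.prod Y) (pd ops D G) := by
  obtain ⟨f, t, -⟩ := exists_f_prod hX hY
  exact ⟨pd_cyc hX.1 hY.1, hardLefschetz_of_sl2 (pd_cyc hX.1 hY.1) t⟩

/-- The conjecture B passes to products. -/
theorem lefschetzB_prod (hX : IsLefschetzDivisor W X D) (hY : IsLefschetzDivisor W Y G)
    (h : LefschetzB W X D) (h' : LefschetzB W Y G) :
    LefschetzB W (X.prod Y) (pd ops D G) := by
  obtain ⟨f, t, hf⟩ := exists_f_prod hX hY
  exact lefschetzB_of_lower (pd_cyc hX.1 hY.1) (isLefschetzDivisor_prod hX hY).2 t (hf h h')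

end Two

/-- The conjecture B gives the statement (a) in all degrees. -/
lemma std_of_lefschetzB (hX : IsLefschetzDivisor W X D) (hB : LefschetzB W X D) :
    LefschetzStd W X D := by
  rw [lefschetzStd_iff hX.1]
  intro i hi
  obtain ⟨Φ, hΦ, hLam⟩ := lefschetzB_iff_rop.1 hB
  obtain ⟨F, hF, hFW⟩ := rop_opAlg.cast (rop_opAlg.pow hΦ (X.dim - i))
    (show ((X.dim - i : ℕ) : ℤ) * (-1) = -((X.dim - i : ℕ) : ℤ) by ring)
  obtain ⟨z, hz, hz'⟩ := cyc_of_realized hi.le hF
  refine ⟨z, (inverts_iff hX.1 W hi.le).2 ⟨hz, fun a ha => ?_⟩⟩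
  rw [← hz', hFW]
  exact lam_pow_L_pow (LL_isHom hX.1 W) W_hbd hX.2 hLam (by omega) ha

lemma lefschetzA_of_std (h : LefschetzStd W X D) : LefschetzA W X D := by
  intro j hj
  exact ain_of_statementA hj (h (2 * j) hj).1

theorem oneCodimLaw (hD : X.IsCyc 1 D) (hC : ∀ i, IsCurveWith (C i) (E i)) {N p : ℕ}
    (hp : 2 * p < X.dim + N) : OneCodimLaw W X D C E N p :=
  ⟨law_down hD hC N p hp, fun hb h => law_up hD hC N p hb hp h, fun hb h1 h2 =>
    ⟨fun h => (lefschetzA_iff_window h1 h2).2 (law_down hD hC N p hp h),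
      fun h => law_up hD hC N p hb hp ((lefschetzA_iff_window h1 h2).1 h)⟩⟩

theorem oneCodimB (hX : IsLefschetzDivisor W X D) (hC : ∀ i, IsCurveWith (C i) (E i)) {N p : ℕ}
    (hd : 1 ≤ X.dim) (hp : 2 * p < 2 * X.dim + N) : OneCodimB W X D C E N p := by
  intro h1 h2
  have hXX : IsLefschetzDivisor W (X.prod X) (boxSum ops D) := isLefschetzDivisor_prod hX hX
  have hdim : (X.prod X).dim = 2 * X.dim := by rw [dim_prod]; ring
  have hp' : 2 * p < (X.prod X).dim + N := by rw [hdim]; exact hp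
  constructor
  · intro h
    refine ((a_tfae hX.1 hX.2).out 2 0).1 ?_
    exact law_down hXX.1 hC N p hp' h (X.dim - 1) (by omega) (by omega) (by omega)
  · intro h
    have h3 := std_of_lefschetzB hXX (lefschetzB_prod hX hX h h)
    have h4 := lefschetzStd_times hXX.1 hC N h3
    have h5 := dim_timesCurves (X := X.prod X) hC N
    exact ain_of_statementA (by omega) (h4 (2 * p) (by omega)).1

/-- **One step.** -/
theorem one_step {P : ∀ V : 𝒱.Obj, V.Cycles → Prop} (hP : IsPolarization W P) {C : 𝒱.Obj}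
    {E : C.Cycles} (hCE : P C E) (hC : IsCurveWith C E) {s : ℕ} (hs : 1 ≤ s) :
    AllAStep W P s ↔ AllA W P := by
  constructor
  · intro h V D hV
    have hVL := hP.1 V D hV
    by_cases hd : V.dim = 0
    · intro j hj
      exact ain_mid (by omega)
    have hall : ∀ N, P (timesCurves (V.prod V) (fun _ => C) N)
        (timesDiv ops (boxSum ops D) (fun _ => E) N) := by
      intro N
      induction N with
      | zero => exact hP.2 V V D D hV hV
      | succ N ih => exact hP.2 _ _ _ _ ih hCE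
    have hdim := dim_timesCurves (X := V.prod V) (C := fun _ => C) (E := fun _ => E)
      (fun _ => hC)
    obtain ⟨N, p, h1, h2, h3, h4⟩ : ∃ N p, 2 * V.dim + N = 2 * p + s ∧ V.dim ≤ p + 1 ∧
        p + 1 ≤ V.dim + N ∧ 2 * p < 2 * V.dim + N := by
      by_cases hs1 : s = 1
      · exact ⟨1, V.dim, by omega, by omega, by omega, by omega⟩
      · exact ⟨s - 2, V.dim - 1, by omega, by omega, by omega, by omega⟩
    have h5 := h _ _ (hall N) p (by rw [hdim N, dim_prod]; omega)
    have h6 := (oneCodimB (C := fun _ => C) (E := fun _ => E) hVL (fun _ => hC) (N := N)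
      (by omega) h4 h2 h3).1 h5
    exact lefschetzA_of_std (std_of_lefschetzB hVL h6)
  · intro h V D hV r hr
    exact h V D hV r (by omega)

end Pool.Agent.Q55.Oc
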