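import Pool.Agent.Q55.Od.Defs
import Pool.Agent.H447R3.AoDefs
import Pool.Agent.W550.B.AddDefs

/-!
# The conjecture A in one codimension for products with curves: definitions
-/

open CategoryTheory AlgebraicGeometry

universe u v

namespace Pool.Agent.Q55.Oc

open Pool.Agent.H914 Pool.Agent.H914.VarClass Pool.Agent.H914.VarClass.Obj
  Pool.Agent.H914.WeilCohomology Pool.Agent.H447 Pool.Agent.W550.B Pool.Agent.Q55.Od

variable {k : Type u} [Field k] {𝒱 : VarClass k} {ops : CycleOps 𝒱}

/-- The conjecture A in the single codimension `p` for the product of `X` with the `N` curves. -/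
def ProductAIn (W : WeilCohomology.{u, v} ops) (X : 𝒱.Obj) (D : X.Cycles) (C : ℕ → 𝒱.Obj)
    (E : ∀ i, (C i).Cycles) (N p : ℕ) : Prop :=
  LefschetzAIn W (timesCurves X C N) (timesDiv ops D E N) p

/-- The first cohomology of the first `N` curves vanishes (for example, the curves are projective
lines). -/
def NoGenus (W : WeilCohomology.{u, v} ops) (C : ℕ → 𝒱.Obj) (N : ℕ) : Prop :=
  ∀ i < N, W.betti (C i) 1 = 0

/-- The conjecture A holds for `X` in all codimensions `q < dim X / 2` with `p - N ≤ q ≤ p`. -/
def WindowA (W : WeilCohomology.{u, v} ops) (X : 𝒱.Obj) (D : X.Cycles) (N p : ℕ) : Prop :=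
  ∀ q, 2 * q < X.dim → q ≤ p → p ≤ q + N → LefschetzAIn W X D q

/-- A class of polarizations: divisors with hard Lefschetz; it contains with divisors `D` on `X`
and `E` on `Y` the sum of their pull-backs to `X × Y`. -/
def IsPolarization (W : WeilCohomology.{u, v} ops) (P : ∀ V : 𝒱.Obj, V.Cycles → Prop) : Prop :=
  (∀ V D, P V D → IsLefschetzDivisor W V D) ∧
    ∀ X Y D E, P X D → P Y E → P (X.prod Y) (ops.pull (fst X Y) D + ops.pull (snd X Y) E)

/-- The conjecture A for all polarized varieties `(V, D)` and the codimensions `r` with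
`dim V - 2 r = s`: every algebraic class of codimension `r + s` is the product of `D ^ s` with an
algebraic class of codimension `r`. -/
def AllAStep (W : WeilCohomology.{u, v} ops) (P : ∀ V : 𝒱.Obj, V.Cycles → Prop) (s : ℕ) : Prop :=
  ∀ V D, P V D → ∀ r, V.dim = 2 * r + s → LefschetzAIn W V D r

/-- The conjecture A for all polarized varieties. -/
def AllA (W : WeilCohomology.{u, v} ops) (P : ∀ V : 𝒱.Obj, V.Cycles → Prop) : Prop :=
  ∀ V D, P V D → LefschetzA W V D

/-- **The law for one codimension `p < dim Y / 2`**, where `Y` is the product of `X` with the `N`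
curves: the conjecture A for `Y` in codimension `p` implies the conjecture A for `X` in the
codimensions `p - N, ..., p`, and is equivalent to it if the curves have no first cohomology. In this
case, for `p ≤ N` and `dim X ≤ 2 p + 2`, it is equivalent to the conjecture A for `X`. -/
def OneCodimLaw (W : WeilCohomology.{u, v} ops) (X : 𝒱.Obj) (D : X.Cycles) (C : ℕ → 𝒱.Obj)
    (E : ∀ i, (C i).Cycles) (N p : ℕ) : Prop :=
  (ProductAIn W X D C E N p → WindowA W X D N p) ∧
    (NoGenus W C N → WindowA W X D N p → ProductAIn W X D C E N p) ∧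
      (NoGenus W C N → p ≤ N → X.dim ≤ 2 * p + 2 → (ProductAIn W X D C E N p ↔ LefschetzA W X D))

/-- **The conjecture B as the conjecture A in one codimension**: the conjecture A in codimension `p`
for the product of `X × X` with the `N` curves is equivalent to the conjecture B for `X`, if
`dim X - 1` is one of the numbers `p - N, ..., p`. -/
def OneCodimB (W : WeilCohomology.{u, v} ops) (X : 𝒱.Obj) (D : X.Cycles) (C : ℕ → 𝒱.Obj)
    (E : ∀ i, (C i).Cycles) (N p : ℕ) : Prop :=
  X.dim ≤ p + 1 → p + 1 ≤ X.dim + N →
    (ProductAIn W (X.prod X) (boxSum ops D) C E N p ↔ LefschetzB W X D)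

end Pool.Agent.Q55.Oc
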