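import Pool.Agent.Q55.Oc.Defs
import Pool.Agent.Q55.Od.Main
import Pool.Agent.H447R3.AoC
import Pool.Agent.H281R3.HT.Base

/-!
# The conjecture A in one codimension for the product with a curve
-/

open CategoryTheory AlgebraicGeometry Finset

set_option linter.unusedSectionVars false

universe u v

namespace Pool.Agent.Q55.Oc

open Pool.Agent.H914 Pool.Agent.H914.VarClass Pool.Agent.H914.VarClass.Obj
  Pool.Agent.H914.WeilCohomology Pool.Agent.H447 Pool.Agent.W550.B Pool.Agent.Q55.Od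
  Pool.Agent.W537 Pool.Agent.H281R3.HT
open Pool.Agent.Y133.Half (PH push_fst xp)

variable {k : Type u} [Field k] {𝒱 : VarClass k} {ops : CycleOps 𝒱}
  {W : WeilCohomology.{u, v} ops} {X C : 𝒱.Obj} {D : X.Cycles} {E : C.Cycles}

/-- The conjecture A in one codimension in terms of classes. -/
lemma ain_iff {j : ℕ} : LefschetzAIn W X D j ↔ ∀ c ∈ algClasses W X (X.dim - j),
    ∃ c' ∈ algClasses W X j, (LL D W ^ (X.dim - 2 * j)) c' = c := by
  constructor
  · rintro h _ ⟨z, hz, rfl⟩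
    obtain ⟨z', hz', h'⟩ := h z hz
    refine ⟨_, ⟨z', hz', rfl⟩, ?_⟩
    rw [← h', cl_divPow]
  · intro h z hz
    obtain ⟨_, ⟨z', hz', rfl⟩, h'⟩ := h _ ⟨z, hz, rfl⟩
    exact ⟨z', hz', by rw [cl_divPow, h']⟩

/-- The middle codimension is trivial. -/
lemma ain_mid {j : ℕ} (hj : X.dim = 2 * j) : LefschetzAIn W X D j := by
  rw [ain_iff]
  intro c hc
  rw [show X.dim - j = j by omega] at hc
  exact ⟨c, hc, by rw [show X.dim - 2 * j = 0 by omega]; rfl⟩

lemma LL_alg (hD : X.IsCyc 1 D) (m : ℕ) {j : ℕ} {c : W.H X} (hc : c ∈ algClasses W X j) :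
    (LL D W ^ m) c ∈ algClasses W X (j + m) := by
  obtain ⟨z, hz, rfl⟩ := hc
  exact ⟨divPow ops D m z, divPow_mem (ops := ops) hD m hz, by rw [cl_divPow]⟩

/-- The class of the divisor on the curve, on the product. -/
noncomputable abbrev et (W : WeilCohomology.{u, v} ops) (X : 𝒱.Obj) {C : 𝒱.Obj} (E : C.Cycles) :
    W.H (X.prod C) := W.map (snd X C) (W.cl C E)

/-- The coefficient of `η`. -/
noncomputable def c1 (W : WeilCohomology.{u, v} ops) (X : 𝒱.Obj) {C : 𝒱.Obj} (E : C.Cycles) :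
    W.H (X.prod C) →ₗ[W.K] W.H X := (dg C E : W.K)⁻¹ • W.push (fst X C)

/-- The coefficient of `1`. -/
noncomputable def c0 (W : WeilCohomology.{u, v} ops) (X : 𝒱.Obj) {C : 𝒱.Obj} (E : C.Cycles) :
    W.H (X.prod C) →ₗ[W.K] W.H X := c1 W X E ∘ₗ LinearMap.mulLeft W.K (et W X E)

lemma et_sq (hC : IsCurveWith C E) : et W X E * et W X E = 0 := by
  rw [et, ← map_mul, N_sq hC (cl_mem_curve hC) (by omega), map_zero]

lemma c1_fst (hD : X.IsCyc 1 D) (m : ℕ) (y : W.H (X.prod C)) :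
    c1 W X E (W.map (fst X C) (W.cl X D ^ m) * y) = (LL D W ^ m) (c1 W X E y) := by
  have h1 : W.cl X D ^ m ∈ W.gr X (2 * m) := by
    have h2 := W.cl_mem (divPow_mem (ops := ops) hD m X.V.fundCycle_mem)
    rwa [cl_divPow, W.cl_fund, LinearMap.pow_mulLeft, LinearMap.mulLeft_apply, mul_one,
      zero_add] at h2
  rw [c1, LinearMap.smul_apply, ← W.mul_push _ h1, LinearMap.smul_apply, map_smul,
    LinearMap.pow_mulLeft, LinearMap.mulLeft_apply]

/-- The powers of the class of the divisor on the product. -/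
lemma cl_pd_pow (hC : IsCurveWith C E) (t : ℕ) : (W.cl _ (pd ops D E)) ^ (t + 1) =
    W.map (fst X C) (W.cl X D ^ (t + 1)) +
      ((t : W.K) + 1) • (W.map (fst X C) (W.cl X D ^ t) * et W X E) := by
  have hc : W.map (fst X C) (W.cl X D) * et W X E = et W X E * W.map (fst X C) (W.cl X D) :=
    (W.even_comm (W.map_mem _ (W.cl_mem hC.2.1)) _).symm
  rw [map_add, W.cl_pull, W.cl_pull, add_pow_sq hc (et_sq hC), map_pow, map_pow]
  congr 1
  have h1 : ((t : W.H (X.prod C)) + 1) = ((t : W.K) + 1) • (1 : W.H (X.prod C)) := by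
    rw [add_smul, one_smul]
    congr 1
    rw [← Algebra.algebraMap_eq_smul_one, map_natCast]
  rw [h1, smul_mul_assoc, one_mul]

lemma et_comm (hC : IsCurveWith C E) (y : W.H (X.prod C)) : et W X E * y = y * et W X E :=
  W.even_comm (W.map_mem _ (W.cl_mem hC.2.1)) y

lemma c1_pow (hC : IsCurveWith C E) (hD : X.IsCyc 1 D) (t : ℕ) (y : W.H (X.prod C)) :
    c1 W X E ((LL (pd ops D E) W ^ (t + 1)) y) =
      (LL D W ^ (t + 1)) (c1 W X E y) + ((t : W.K) + 1) • (LL D W ^ t) (c0 W X E y) := by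
  rw [LinearMap.pow_mulLeft, LinearMap.mulLeft_apply, cl_pd_pow hC, add_mul, map_add,
    c1_fst hD, smul_mul_assoc, map_smul, mul_assoc, c1_fst hD]
  rfl

lemma c0_pow (hC : IsCurveWith C E) (hD : X.IsCyc 1 D) (t : ℕ) (y : W.H (X.prod C)) :
    c0 W X E ((LL (pd ops D E) W ^ (t + 1)) y) = (LL D W ^ (t + 1)) (c0 W X E y) := by
  rw [LinearMap.pow_mulLeft, LinearMap.mulLeft_apply, cl_pd_pow hC, c0, LinearMap.comp_apply,
    LinearMap.mulLeft_apply, ← mul_assoc, mul_add, add_mul, mul_smul_comm, ← mul_assoc,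
    et_comm hC (W.map _ _), et_comm hC (W.map _ _), mul_assoc _ (et W X E) (et W X E), et_sq hC,
    mul_zero, smul_zero, zero_mul, add_zero, mul_assoc, c1_fst hD]
  rfl

/-! ## Values -/

lemma even_one : (1 : W.H C) ∈ PH W C 0 := PH.of (W.one_mem C)

lemma c1_one (hC : IsCurveWith C E) (x : W.H X) : c1 W X E (W.map (fst X C) x) = 0 := by
  have h1 := push_fst (W := W) x (1 : W.H C) even_one
  rw [xp, map_one, mul_one, W.tr_eq_zero (W.one_mem C) (by rw [hC.1]; omega), zero_smul] at h1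
  rw [c1, LinearMap.smul_apply, h1, smul_zero]

lemma c1_et (hC : IsCurveWith C E) (x : W.H X) :
    c1 W X E (W.map (fst X C) x * et W X E) = x := by
  have h1 := push_fst (W := W) x (W.cl C E) (PH.congr (by simp) (PH.of (cl_mem_curve hC)))
  rw [xp, tr_cl_curve hC] at h1
  rw [c1, LinearMap.smul_apply, h1, smul_smul, inv_mul_cancel₀ (dg_ne hC), one_smul]

lemma c0_one (hC : IsCurveWith C E) (x : W.H X) : c0 W X E (W.map (fst X C) x) = x := by
  rw [c0, LinearMap.comp_apply, LinearMap.mulLeft_apply, et_comm hC, c1_et hC]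

lemma c0_et (hC : IsCurveWith C E) (x : W.H X) :
    c0 W X E (W.map (fst X C) x * et W X E) = 0 := by
  rw [c0, LinearMap.comp_apply, LinearMap.mulLeft_apply, et_comm hC, mul_assoc, et_sq hC, mul_zero,
    map_zero]

lemma alg_et (hC : IsCurveWith C E) : et W X E ∈ algClasses W (X.prod C) 1 :=
  alg_map _ ⟨E, hC.2.1, rfl⟩

lemma c1_alg (hC : IsCurveWith C E) {j : ℕ} {y : W.H (X.prod C)}
    (hy : y ∈ algClasses W (X.prod C) (j + 1)) : c1 W X E y ∈ algClasses W X j := by
  have h1 := alg_smul (dg C E)⁻¹ (alg_push (fst X C) hy (i := j) (by rw [dim_prod, hC.1]; ring))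
  rw [Rat.cast_inv] at h1
  exact h1

lemma c1_alg_zero (hC : IsCurveWith C E) {y : W.H (X.prod C)}
    (hy : y ∈ algClasses W (X.prod C) 0) : c1 W X E y = 0 := by
  rw [c1, LinearMap.smul_apply, alg_push_zero hy (by rw [dim_prod, hC.1]; omega), smul_zero]

lemma c0_alg (hC : IsCurveWith C E) {j : ℕ} {y : W.H (X.prod C)}
    (hy : y ∈ algClasses W (X.prod C) j) : c0 W X E y ∈ algClasses W X j := by
  have h1 := alg_mul (alg_et hC) hy
  rw [add_comm] at h1
  exact c1_alg hC h1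

/-! ## From the product to the factor -/

/-- The same codimension. -/
theorem down_same (hC : IsCurveWith C E) (hD : X.IsCyc 1 D) {p : ℕ} (hp : 2 * p ≤ X.dim)
    (h : LefschetzAIn W (X.prod C) (pd ops D E) p) : LefschetzAIn W X D p := by
  have hdim : (X.prod C).dim = X.dim + 1 := by rw [dim_prod, hC.1]
  rw [ain_iff] at h ⊢
  intro c hc
  obtain ⟨t, ht⟩ : ∃ t, X.dim - 2 * p = t := ⟨_, rfl⟩
  have hK : ((t : W.K) + 1) ≠ 0 := by exact_mod_cast Nat.succ_ne_zero t
  rw [ht]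
  obtain ⟨y, hy, hyc⟩ := h (W.map (fst X C) (LL D W c) +
      ((t : W.K) + 1) • (W.map (fst X C) c * et W X E)) (by
    rw [hdim, show X.dim + 1 - p = X.dim - p + 1 by omega]
    refine alg_add (alg_map _ ?_) ?_
    · have := LL_alg hD 1 hc
      rwa [pow_one] at this
    · have h1 := alg_smul ((t : ℚ) + 1) (alg_mul (alg_map (fst X C) hc) (alg_et (X := X) hC))
      push_cast at h1
      exact h1)
  rw [show (X.prod C).dim - 2 * p = t + 1 by omega] at hyc
  have e1 := congrArg (c1 W X E) hyc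
  rw [c1_pow hC hD, map_add, c1_one hC, map_smul, c1_et hC, zero_add] at e1
  -- the algebraic class
  have hw : LL D W (c1 W X E y) ∈ algClasses W X p := by
    rcases Nat.eq_zero_or_pos p with h0 | h0
    · subst h0
      rw [c1_alg_zero hC hy, map_zero]
      exact ⟨0, SmVar.IsCyc.zero _ _, map_zero _⟩
    · obtain ⟨q, rfl⟩ : ∃ q, p = q + 1 := ⟨p - 1, by omega⟩
      have := LL_alg hD 1 (c1_alg hC hy)
      rwa [pow_one] at this
  refine ⟨c0 W X E y + (((((t : ℚ) + 1)⁻¹ : ℚ)) : W.K) • LL D W (c1 W X E y), ?_, ?_⟩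
  · exact alg_add (c0_alg hC hy) (alg_smul _ hw)
  · have e2 : (LL D W ^ t) (LL D W (c1 W X E y)) = (LL D W ^ (t + 1)) (c1 W X E y) := by
      rw [pow_succ]; rfl
    have e3 := congrArg (fun v => ((t : W.K) + 1)⁻¹ • v) e1
    simp only [smul_add, smul_smul, inv_mul_cancel₀ hK, one_smul] at e3
    rw [map_add, map_smul, e2, ← e3]
    push_cast
    rw [add_comm]

/-- The preceding codimension. -/
theorem down_pred (hC : IsCurveWith C E) (hD : X.IsCyc 1 D) {p : ℕ} (hp : 2 * (p + 1) ≤ X.dim)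
    (h : LefschetzAIn W (X.prod C) (pd ops D E) (p + 1)) : LefschetzAIn W X D p := by
  have hdim : (X.prod C).dim = X.dim + 1 := by rw [dim_prod, hC.1]
  rw [ain_iff] at h ⊢
  intro c hc
  obtain ⟨t, ht⟩ : ∃ t, X.dim - 2 * (p + 1) = t := ⟨_, rfl⟩
  have hK : ((t : W.K) + 1) ≠ 0 := by exact_mod_cast Nat.succ_ne_zero t
  rw [show X.dim - 2 * p = t + 2 by omega]
  obtain ⟨y, hy, hyc⟩ := h (W.map (fst X C) c) (by
    rw [hdim, show X.dim + 1 - (p + 1) = X.dim - p by omega]
    exact alg_map _ hc)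
  rw [show (X.prod C).dim - 2 * (p + 1) = t + 1 by omega] at hyc
  have e1 := congrArg (c1 W X E) hyc
  have e0 := congrArg (c0 W X E) hyc
  rw [c1_pow hC hD, c1_one hC] at e1
  rw [c0_pow hC hD, c0_one hC] at e0
  refine ⟨(((-((t : ℚ) + 1)⁻¹ : ℚ)) : W.K) • c1 W X E y, alg_smul _ (c1_alg hC hy), ?_⟩
  have e3 : (LL D W ^ (t + 1)) (c0 W X E y) = LL D W ((LL D W ^ t) (c0 W X E y)) := by
    rw [pow_succ']; rfl
  have e4 : (LL D W ^ t) (c0 W X E y) =
      -(((t : W.K) + 1)⁻¹ • (LL D W ^ (t + 1)) (c1 W X E y)) := by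
    rw [← smul_neg, ← eq_neg_of_add_eq_zero_right e1, smul_smul, inv_mul_cancel₀ hK, one_smul]
  rw [← e0, e3, e4, map_neg, map_smul, map_smul]
  push_cast
  rw [neg_smul]
  congr 2
  rw [pow_succ', pow_succ' _ t]
  rfl

/-! ## From the factor to the product -/

lemma decomp (hC : IsCurveWith C E) (hb : W.betti C 1 = 0) (y : W.H (X.prod C)) :
    y = W.map (fst X C) (c0 W X E y) + W.map (fst X C) (c1 W X E y) * et W X E := by
  have hP : P1 W C = 0 := by
    apply LinearMap.ext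
    intro y
    have h3 : W.gr C 1 = ⊥ := Submodule.finrank_eq_zero.1 hb
    have h4 := proj_mem (W.isInternal C) 1 y
    rw [h3] at h4
    exact (Submodule.mem_bot _).1 h4
  have hs := sum_curve (W := W) hC
  rw [hP, add_zero] at hs
  have h1 : (LinearMap.id : W.H (X.prod C) →ₗ[W.K] W.H (X.prod C)) =
      (W.map (fst X C)).toLinearMap ∘ₗ c0 W X E +
        LinearMap.mulRight W.K (et W X E) ∘ₗ (W.map (fst X C)).toLinearMap ∘ₗ c1 W X E := by
    apply ext_kunneth_lin
    intro a b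
    have hb' : b = (dg C E : W.K)⁻¹ • (W.tr C (W.cl C E * b) • (1 : W.H C)) +
        (dg C E : W.K)⁻¹ • (W.tr C b • W.cl C E) := by
      have h2 := congrArg (fun T : Module.End W.K (W.H C) => T b) hs
      simp only [LinearMap.add_apply, Module.End.one_apply] at h2
      rw [EE_ff hC, EE_tt hC, proj_zero hC, proj_two hC, LinearMap.smul_apply,
        LinearMap.smul_apply, opE_apply, opE_apply, one_mul] at h2
      exact h2.symm
    rw [hb']
    simp only [map_add, map_smul, mul_add, mul_smul_comm, map_one, mul_one, LinearMap.add_apply,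
      LinearMap.comp_apply, LinearMap.id_apply, AlgHom.toLinearMap_apply,
      LinearMap.mulRight_apply, smul_mul_assoc]
    rw [c0_one hC, c0_et hC, c1_one hC, c1_et hC]
    simp
  exact congrArg (fun T : W.H (X.prod C) →ₗ[W.K] W.H (X.prod C) => T y) h1

theorem up (hC : IsCurveWith C E) (hb : W.betti C 1 = 0) (hD : X.IsCyc 1 D) {p : ℕ}
    (hp : 2 * p ≤ X.dim) (h0 : LefschetzAIn W X D p)
    (h1 : ∀ q, p = q + 1 → LefschetzAIn W X D q) :
    LefschetzAIn W (X.prod C) (pd ops D E) p := by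
  have hdim : (X.prod C).dim = X.dim + 1 := by rw [dim_prod, hC.1]
  rw [ain_iff]
  intro y hy
  obtain ⟨t, ht⟩ : ∃ t, X.dim - 2 * p = t := ⟨_, rfl⟩
  have hK : ((t : W.K) + 1) ≠ 0 := by exact_mod_cast Nat.succ_ne_zero t
  rw [show (X.prod C).dim - 2 * p = t + 1 by omega]
  rw [hdim, show X.dim + 1 - p = X.dim - p + 1 by omega] at hy
  have ha := c0_alg hC hy
  have hb1 := c1_alg hC hy
  set a := c0 W X E y with hadef
  set b := c1 W X E y with hbdef
  -- the coefficient of `η`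
  obtain ⟨w, hw, hw'⟩ : ∃ w, (W.map (fst X C) w * et W X E ∈ algClasses W (X.prod C) p ∧
      (LL D W ^ (t + 1)) w ∈ algClasses W X (X.dim - p)) ∧
      (LL D W ^ (t + 2)) w = LL D W b - ((t : W.K) + 1) • a := by
    have hLb : LL D W b - ((t : W.K) + 1) • a ∈ algClasses W X (X.dim - p + 1) := by
      refine alg_sub ?_ ?_
      · have := LL_alg hD 1 hb1
        rwa [pow_one] at this
      · have h2 := alg_smul ((t : ℚ) + 1) ha
        push_cast at h2
        exact h2
    rcases Nat.eq_zero_or_pos p with hp0 | hp0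
    · have h3 := alg_gr hLb
      rw [W.gr_eq_bot X _ (by omega)] at h3
      refine ⟨0, ⟨?_, ?_⟩, ?_⟩
      · rw [map_zero, zero_mul]
        exact ⟨0, SmVar.IsCyc.zero _ _, map_zero _⟩
      · rw [map_zero]
        exact ⟨0, SmVar.IsCyc.zero _ _, map_zero _⟩
      · rw [map_zero, (Submodule.mem_bot _).1 h3]
    · obtain ⟨q, rfl⟩ : ∃ q, p = q + 1 := ⟨p - 1, by omega⟩
      obtain ⟨w, hw, hww⟩ := (ain_iff.1 (h1 q rfl)) _ (by
        rwa [show X.dim - q = X.dim - (q + 1) + 1 by omega])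
      rw [show X.dim - 2 * q = t + 2 by omega] at hww
      refine ⟨w, ⟨alg_mul (alg_map _ hw) (alg_et hC), ?_⟩, hww⟩
      have h4 := LL_alg hD (t + 1) hw
      rwa [show q + (t + 1) = X.dim - (q + 1) by omega] at h4
  -- the coefficient of `1`
  obtain ⟨x, hx, hxx⟩ := (ain_iff.1 h0) ((((((t : ℚ) + 1)⁻¹ : ℚ)) : W.K) •
    (b - (LL D W ^ (t + 1)) w)) (alg_smul _ (alg_sub hb1 hw.2))
  rw [ht] at hxx
  refine ⟨W.map (fst X C) x + W.map (fst X C) w * et W X E, alg_add (alg_map _ hx) hw.1, ?_⟩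
  have e0 : c0 W X E (W.map (fst X C) x + W.map (fst X C) w * et W X E) = x := by
    rw [map_add, c0_one hC, c0_et hC, add_zero]
  have e1 : c1 W X E (W.map (fst X C) x + W.map (fst X C) w * et W X E) = w := by
    rw [map_add, c1_one hC, c1_et hC, zero_add]
  have hsm : ((t : W.K) + 1) • (LL D W ^ t) x = b - (LL D W ^ (t + 1)) w := by
    rw [hxx, smul_smul]
    push_cast
    rw [mul_inv_cancel₀ hK, one_smul]
  rw [decomp hC hb ((LL (pd ops D E) W ^ (t + 1)) _), c0_pow hC hD, c1_pow hC hD, e0, e1, hsm,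
    add_sub_cancel, decomp hC hb y, ← hadef, ← hbdef]
  congr 2
  -- the equation for `a`
  have h5 := congrArg (LL D W) hsm
  rw [map_smul, map_sub] at h5
  have h6 : LL D W ((LL D W ^ (t + 1)) w) = (LL D W ^ (t + 2)) w := by
    rw [pow_succ' _ (t + 1)]; rfl
  have h7 : LL D W ((LL D W ^ t) x) = (LL D W ^ (t + 1)) x := by
    rw [pow_succ']; rfl
  rw [h6, h7, hw', sub_sub_cancel] at h5
  exact smul_right_injective _ hK h5

end Pool.Agent.Q55.Oc
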